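import Mathlib

/-!
Hermite's constant, in the form of the frozen statements of MP_ef2672_gt.
-/

namespace Pool.Agent.H160R3.Herm

/-- least squared length of a nonzero vector of the lattice `A ℤⁿ` -/
noncomputable def minSq {n : ℕ} (A : Matrix (Fin n) (Fin n) ℝ) : ℝ :=
  ⨅ w : {w : Fin n → ℤ // w ≠ 0}, ∑ i, (Matrix.mulVec A (fun j => (w.1 j : ℝ))) i ^ 2

/-- Hermite's constant `γ_n`: supremum over full-rank lattices `A ℤⁿ` of the least squared length
of a nonzero vector divided by `covolume^(2/n)`. -/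
noncomputable def hermite (n : ℕ) : ℝ :=
  ⨆ A : {A : Matrix (Fin n) (Fin n) ℝ // A.det ≠ 0},
    minSq A.1 / |A.1.det| ^ ((2 : ℝ) / (n : ℝ))

/-- `γ_n / n` -/
noncomputable def ratio (n : ℕ) : ℝ := hermite n / n

end Pool.Agent.H160R3.Herm
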