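import Pool.Agent.H160R3.Herm.Sum

open Matrix Finset

namespace Pool.Agent.H160R3.Herm

lemma sum_half (n : ℕ) :
    ∑ t ∈ Icc (-(n : ℤ)) n, (1 / 2 : ℝ) ^ (t.natAbs) = 3 - 2 * (1 / 2 : ℝ) ^ n := by
  induction n with
  | zero => simp; norm_num
  | succ k ih =>
    have h : Icc (-((k + 1 : ℕ) : ℤ)) ((k + 1 : ℕ) : ℤ) =
        insert (-((k + 1 : ℕ) : ℤ)) (insert ((k + 1 : ℕ) : ℤ) (Icc (-(k : ℤ)) k)) := by
      ext t
      simp only [mem_insert, mem_Icc]
      push_cast
      omega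
    rw [h, sum_insert, sum_insert, ih, Int.natAbs_neg, Int.natAbs_natCast, pow_succ]
    · ring
    · simp
    · simp only [mem_insert, mem_Icc]
      push_cast
      omega

/-- integer vectors of squared length at most `n` -/
noncomputable def shortVec (n : ℕ) : Finset (Fin n → ℤ) :=
  (Fintype.piFinset (fun _ : Fin n => Icc (-(n : ℤ)) n)).filter (fun x => ∑ i, x i ^ 2 ≤ n)

lemma mem_shortVec {n : ℕ} {x : Fin n → ℤ} (h : ∑ i, x i ^ 2 ≤ n) : x ∈ shortVec n := by
  unfold shortVec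
  rw [mem_filter, Fintype.mem_piFinset]
  refine ⟨fun i => ?_, h⟩
  have h1 : x i ^ 2 ≤ n :=
    (Finset.single_le_sum (f := fun i => x i ^ 2) (fun _ _ => sq_nonneg _) (mem_univ i)).trans h
  rw [mem_Icc]
  constructor <;> nlinarith

lemma abs_le_of_mem {n : ℕ} {x : Fin n → ℤ} (h : x ∈ shortVec n) (i : Fin n) : |x i| ≤ n := by
  unfold shortVec at h
  rw [mem_filter, Fintype.mem_piFinset] at h
  have := h.1 i
  rw [mem_Icc] at this
  rw [abs_le]
  exact this

lemma card_shortVec (n : ℕ) : (shortVec n).card ≤ 6 ^ n := by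
  have h1 : ∑ x ∈ shortVec n, ∏ i, (1 / 2 : ℝ) ^ (x i).natAbs ≤ 3 ^ n := by
    calc ∑ x ∈ shortVec n, ∏ i, (1 / 2 : ℝ) ^ (x i).natAbs
        ≤ ∑ x ∈ Fintype.piFinset (fun _ : Fin n => Icc (-(n : ℤ)) n),
            ∏ i, (1 / 2 : ℝ) ^ (x i).natAbs := by
          apply sum_le_sum_of_subset_of_nonneg (filter_subset _ _)
          intro _ _ _
          positivity
      _ = ∏ _i : Fin n, ∑ t ∈ Icc (-(n : ℤ)) n, (1 / 2 : ℝ) ^ t.natAbs := by
          exact (Finset.prod_univ_sum (fun _ : Fin n => Icc (-(n : ℤ)) n)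
            (fun _ t => (1 / 2 : ℝ) ^ t.natAbs)).symm
      _ = (3 - 2 * (1 / 2 : ℝ) ^ n) ^ n := by
          rw [sum_half]; simp
      _ ≤ 3 ^ n := by
          have : (1 / 2 : ℝ) ^ n ≤ 1 := pow_le_one₀ (by norm_num) (by norm_num)
          have h0 : (0 : ℝ) < (1 / 2 : ℝ) ^ n := by positivity
          apply pow_le_pow_left₀
          · linarith
          · linarith
  have h2 : ((shortVec n).card : ℝ) * (1 / 2 : ℝ) ^ n ≤
      ∑ x ∈ shortVec n, ∏ i, (1 / 2 : ℝ) ^ (x i).natAbs := by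
    rw [← nsmul_eq_mul, ← Finset.sum_const]
    apply Finset.sum_le_sum
    intro x hx
    rw [Finset.prod_pow_eq_pow_sum]
    apply pow_le_pow_of_le_one (by norm_num) (by norm_num)
    unfold shortVec at hx
    rw [mem_filter] at hx
    have h3 : (∑ i, ((x i).natAbs : ℤ)) ≤ ∑ i, x i ^ 2 := by
      apply Finset.sum_le_sum
      intro i _
      rw [Int.natCast_natAbs, ← sq_abs]
      have := abs_nonneg (x i)
      rcases eq_or_ne (x i) 0 with h | h
      · simp [h]
      · have := Int.one_le_abs h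
        nlinarith
    have h4 := h3.trans hx.2
    exact_mod_cast h4
  have h5 : ((shortVec n).card : ℝ) ≤ 6 ^ n := by
    have h6 := h2.trans h1
    have e : (6 : ℝ) ^ n * (1 / 2) ^ n = 3 ^ n := by rw [← mul_pow]; norm_num
    rw [← e] at h6
    exact le_of_mul_le_mul_right h6 (by positivity)
  exact_mod_cast h5

/-- the lattice `{x : x_last ≡ ∑ a_j x_j mod p}` -/
noncomputable def modMat (k p : ℕ) (a : Fin k → ℕ) : Matrix (Fin (k + 1)) (Fin (k + 1)) ℝ :=
  Matrix.reindex finSumFinEquiv finSumFinEquiv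
    (Matrix.fromBlocks (1 : Matrix (Fin k) (Fin k) ℝ) (0 : Matrix (Fin k) (Fin 1) ℝ)
      (Matrix.of fun (_ : Fin 1) (j : Fin k) => (a j : ℝ))
      (Matrix.of fun (_ : Fin 1) (_ : Fin 1) => (p : ℝ)))

lemma det_modMat (k p : ℕ) (a : Fin k → ℕ) : (modMat k p a).det = p := by
  rw [modMat, Matrix.det_reindex_self, Matrix.det_fromBlocks_zero₁₂, Matrix.det_one, one_mul]
  simp

/-- the vector `modMat w` over the integers -/
def modVec (k p : ℕ) (a : Fin k → ℕ) (w : Fin (k + 1) → ℤ) : Fin (k + 1) → ℤ :=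
  Fin.addCases (fun j : Fin k => w (Fin.castAdd 1 j))
    (fun _ : Fin 1 => ∑ j : Fin k, (a j : ℤ) * w (Fin.castAdd 1 j) + p * w (Fin.natAdd k 0))

lemma mulVec_modMat (k p : ℕ) (a : Fin k → ℕ) (w : Fin (k + 1) → ℤ) (i : Fin (k + 1)) :
    (Matrix.mulVec (modMat k p a) (fun j => (w j : ℝ))) i = (modVec k p a w i : ℝ) := by
  refine Fin.addCases (m := k) (n := 1) (fun j => ?_) (fun j => ?_) i
  · simp only [modVec, Fin.addCases_left, Matrix.mulVec, dotProduct]
    rw [Fin.sum_univ_add]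
    simp [modMat, Matrix.one_apply]
  · simp only [modVec, Fin.addCases_right, Matrix.mulVec, dotProduct]
    rw [Fin.sum_univ_add]
    have hj : j = 0 := Subsingleton.elim _ _
    subst hj
    simp [modMat]

/-- residues `a` for which `x` lies in the lattice -/
noncomputable def solSet (k p : ℕ) [NeZero p] (x : Fin (k + 1) → ℤ) : Finset (Fin k → ZMod p) :=
  univ.filter fun a => (x (Fin.natAdd k 0) : ZMod p) = ∑ j, a j * (x (Fin.castAdd 1 j) : ZMod p)

lemma cast_eq_zero {p : ℕ} {n : ℕ} (hpn : n < p) {t : ℤ} (ht : |t| ≤ n) (h : (t : ZMod p) = 0) :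
    t = 0 := by
  rw [ZMod.intCast_zmod_eq_zero_iff_dvd] at h
  apply Int.eq_zero_of_abs_lt_dvd h
  have : (n : ℤ) < p := by exact_mod_cast hpn
  linarith

lemma card_solSet (k p : ℕ) [hp : Fact p.Prime] (hpn : k + 1 < p) (x : Fin (k + 1) → ℤ)
    (hx : x ∈ shortVec (k + 1)) (hx0 : x ≠ 0) : (solSet k p x).card * p ≤ p ^ k := by
  classical
  by_cases hall : ∀ j : Fin k, (x (Fin.castAdd 1 j) : ZMod p) = 0
  · have hempty : solSet k p x = ∅ := by
      rw [Finset.eq_empty_iff_forall_notMem]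
      intro a ha
      unfold solSet at ha
      rw [mem_filter] at ha
      have h1 : (x (Fin.natAdd k 0) : ZMod p) = 0 := by
        rw [ha.2]
        apply Finset.sum_eq_zero
        intro j _
        rw [hall j, mul_zero]
      apply hx0
      ext i
      refine Fin.addCases (m := k) (n := 1) (fun j => ?_) (fun j => ?_) i
      · exact cast_eq_zero hpn (abs_le_of_mem hx _) (hall j)
      · have hj : j = 0 := Subsingleton.elim _ _
        subst hj
        exact cast_eq_zero hpn (abs_le_of_mem hx _) h1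
    rw [hempty]
    simp
  · push Not at hall
    obtain ⟨j0, hj0⟩ := hall
    have hcard : (univ : Finset (Fin k → ZMod p)).card = p ^ k := by
      rw [Finset.card_univ, Fintype.card_pi_const, ZMod.card]
    have hprod : (solSet k p x ×ˢ (univ : Finset (ZMod p))).card = (solSet k p x).card * p := by
      rw [Finset.card_product, Finset.card_univ, ZMod.card]
    rw [← hprod, ← hcard]
    apply Finset.card_le_card_of_injOn (fun q => q.1 + Pi.single j0 q.2)
    · intro _ _
      simp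
    · rintro ⟨a, s⟩ ha ⟨b, t⟩ hb hab
      simp only [coe_product, Set.mem_prod, mem_coe, coe_univ, Set.mem_univ, and_true] at ha hb
      unfold solSet at ha hb
      rw [mem_filter] at ha hb
      simp only at hab
      have h1 : ∑ j, (a + Pi.single j0 s : Fin k → ZMod p) j * (x (Fin.castAdd 1 j) : ZMod p) =
          ∑ j, (b + Pi.single j0 t : Fin k → ZMod p) j * (x (Fin.castAdd 1 j) : ZMod p) := by rw [hab]
      have h2 : ∀ (c : Fin k → ZMod p) (r : ZMod p),
          ∑ j, (c + Pi.single j0 r : Fin k → ZMod p) j * (x (Fin.castAdd 1 j) : ZMod p) =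
            ∑ j, c j * (x (Fin.castAdd 1 j) : ZMod p) + r * (x (Fin.castAdd 1 j0) : ZMod p) := by
        intro c r
        simp only [Pi.add_apply, add_mul, Finset.sum_add_distrib]
        congr 1
        rw [Finset.sum_eq_single j0]
        · simp
        · intro j _ hj
          rw [Pi.single_eq_of_ne hj, zero_mul]
        · simp
      rw [h2, h2, ← ha.2, ← hb.2, add_right_inj] at h1
      have h3 : s = t := mul_right_cancel₀ hj0 h1
      subst h3
      have h4 : a = b := add_right_cancel hab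
      rw [h4]

lemma exists_good (k p : ℕ) [hp : Fact p.Prime] (hpn : 6 ^ (k + 1) < p) :
    ∃ a : Fin k → ZMod p, ∀ x ∈ shortVec (k + 1), x ≠ 0 → a ∉ solSet k p x := by
  classical
  have hkp : k + 1 < p := lt_of_lt_of_le (Nat.lt_pow_self (by norm_num)) hpn.le
  set X := (shortVec (k + 1)).filter (fun x => x ≠ 0) with hX
  have hXc : X.card ≤ 6 ^ (k + 1) := (card_filter_le _ _).trans (card_shortVec _)
  have h1 : (X.biUnion (solSet k p)).card * p < p ^ k * p := by
    calc (X.biUnion (solSet k p)).card * p ≤ (∑ x ∈ X, (solSet k p x).card) * p :=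
          Nat.mul_le_mul_right _ card_biUnion_le
      _ = ∑ x ∈ X, (solSet k p x).card * p := by rw [Finset.sum_mul]
      _ ≤ ∑ _x ∈ X, p ^ k := by
          apply Finset.sum_le_sum
          intro x hx
          rw [hX, mem_filter] at hx
          exact card_solSet k p hkp x hx.1 hx.2
      _ = X.card * p ^ k := by simp
      _ ≤ 6 ^ (k + 1) * p ^ k := Nat.mul_le_mul_right _ hXc
      _ < p * p ^ k := Nat.mul_lt_mul_of_pos_right hpn (pow_pos hp.out.pos _)
      _ = p ^ k * p := mul_comm _ _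
  have h2 : (X.biUnion (solSet k p)).card < p ^ k := lt_of_mul_lt_mul_right h1 (Nat.zero_le _)
  have h3 : (X.biUnion (solSet k p)) ≠ univ := by
    intro h
    rw [h, Finset.card_univ, Fintype.card_pi_const, ZMod.card] at h2
    exact lt_irrefl _ h2
  obtain ⟨a, ha⟩ : ∃ a, a ∉ X.biUnion (solSet k p) := by
    by_contra hcon
    push Not at hcon
    exact h3 (Finset.eq_univ_of_forall hcon)
  refine ⟨a, fun x hx hx0 hax => ha ?_⟩
  rw [mem_biUnion]
  exact ⟨x, by rw [hX, mem_filter]; exact ⟨hx, hx0⟩, hax⟩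

lemma minSq_modMat (k p : ℕ) [hp : Fact p.Prime] (hpn : 6 ^ (k + 1) < p) :
    ∃ a : Fin k → ℕ, ((k + 1 : ℕ) : ℝ) ≤ minSq (modMat k p a) := by
  obtain ⟨a, ha⟩ := exists_good k p hpn
  refine ⟨fun j => (a j).val, ?_⟩
  apply le_minSq (Nat.succ_pos k)
  intro w hw
  have h1 : ∑ i, (Matrix.mulVec (modMat k p fun j => (a j).val) (fun j => (w j : ℝ))) i ^ 2 =
      ((∑ i, (modVec k p (fun j => (a j).val) w i) ^ 2 : ℤ) : ℝ) := by
    push_cast
    refine Finset.sum_congr rfl fun i _ => ?_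
    rw [mulVec_modMat]
  rw [h1]
  set x := modVec k p (fun j => (a j).val) w with hx
  by_contra hcon
  rw [not_le] at hcon
  have hle : ∑ i, x i ^ 2 ≤ ((k + 1 : ℕ) : ℤ) := by
    have : ((∑ i, x i ^ 2 : ℤ) : ℝ) < (((k + 1 : ℕ) : ℤ) : ℝ) := by exact_mod_cast hcon
    exact (by exact_mod_cast this.le)
  have hxl : ∀ j : Fin k, x (Fin.castAdd 1 j) = w (Fin.castAdd 1 j) := by
    intro j
    rw [hx, modVec, Fin.addCases_left]
  have hxr : x (Fin.natAdd k (0 : Fin 1)) =
      ∑ j : Fin k, ((a j).val : ℤ) * w (Fin.castAdd 1 j) + p * w (Fin.natAdd k (0 : Fin 1)) := by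
    rw [hx, modVec, Fin.addCases_right]
  have hx0 : x ≠ 0 := by
    intro h0
    apply hw
    have hwl : ∀ j : Fin k, w (Fin.castAdd 1 j) = 0 := by
      intro j
      rw [← hxl j, h0]
      rfl
    ext i
    refine Fin.addCases (m := k) (n := 1) (fun j => ?_) (fun j => ?_) i
    · exact hwl j
    · have hj : j = 0 := Subsingleton.elim _ _
      subst hj
      have h2 : (p : ℤ) * w (Fin.natAdd k (0 : Fin 1)) = 0 := by
        have h3 : x (Fin.natAdd k (0 : Fin 1)) = 0 := by rw [h0]; rfl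
        rw [hxr] at h3
        simpa [hwl] using h3
      rcases mul_eq_zero.mp h2 with h3 | h3
      · exact absurd (by exact_mod_cast h3) hp.out.ne_zero
      · exact h3
  apply ha x (mem_shortVec hle) hx0
  unfold solSet
  rw [mem_filter]
  refine ⟨mem_univ _, ?_⟩
  rw [hxr]
  push_cast
  simp only [ZMod.natCast_val, ZMod.cast_id', id_eq, CharP.cast_eq_zero, zero_mul, add_zero]
  refine Finset.sum_congr rfl fun j _ => ?_
  rw [hxl]

/-- linear lower bound for Hermite's constant -/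
theorem hermite_ge {n : ℕ} (hn : 0 < n) : (n : ℝ) / 144 ≤ hermite n := by
  obtain ⟨k, rfl⟩ : ∃ k, n = k + 1 := ⟨n - 1, by omega⟩
  obtain ⟨p, hp, hp1, hp2⟩ := Nat.exists_prime_lt_and_le_two_mul (6 ^ (k + 1)) (by positivity)
  have : Fact p.Prime := ⟨hp⟩
  obtain ⟨a, ha⟩ := minSq_modMat k p hp1
  have hp0 : (0 : ℝ) < p := by exact_mod_cast hp.pos
  have hdet : (modMat k p a).det ≠ 0 := by rw [det_modMat]; exact hp0.ne'
  refine le_trans ?_ (le_hermite (Nat.succ_pos k) (modMat k p a) hdet)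
  rw [det_modMat, abs_of_pos hp0]
  have hk : (1 : ℝ) ≤ ((k + 1 : ℕ) : ℝ) := by exact_mod_cast Nat.succ_pos k
  have h1 : (p : ℝ) ^ ((2 : ℝ) / ((k + 1 : ℕ) : ℝ)) ≤ 144 := by
    have h2 : (p : ℝ) ≤ (12 : ℝ) ^ ((k + 1 : ℕ) : ℝ) := by
      rw [Real.rpow_natCast]
      calc (p : ℝ) ≤ 2 * 6 ^ (k + 1) := by exact_mod_cast hp2
        _ ≤ 2 ^ (k + 1) * 6 ^ (k + 1) := by
            gcongr
            exact le_self_pow₀ (by norm_num) (Nat.succ_ne_zero k)
        _ = 12 ^ (k + 1) := by rw [← mul_pow]; norm_num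
    calc (p : ℝ) ^ ((2 : ℝ) / ((k + 1 : ℕ) : ℝ))
        ≤ ((12 : ℝ) ^ ((k + 1 : ℕ) : ℝ)) ^ ((2 : ℝ) / ((k + 1 : ℕ) : ℝ)) :=
          Real.rpow_le_rpow hp0.le h2 (by positivity)
      _ = 144 := by
          rw [← Real.rpow_mul (by norm_num), mul_div_cancel₀ _ (by positivity)]
          norm_num
  have h3 : (0 : ℝ) < (p : ℝ) ^ ((2 : ℝ) / ((k + 1 : ℕ) : ℝ)) := by positivity
  calc (((k + 1 : ℕ) : ℝ)) / 144 ≤ ((k + 1 : ℕ) : ℝ) / (p : ℝ) ^ ((2 : ℝ) / ((k + 1 : ℕ) : ℝ)) := by
        gcongr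
    _ ≤ _ := by gcongr

end Pool.Agent.H160R3.Herm
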