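import Mathlib

/-!
Slowly decreasing bounded sequences.
-/

open Filter Set
open scoped Topology

namespace Pool.Agent.H160R3.Herm

/-- `u` is bounded and slowly decreasing with modulus `η` -/
structure SlowDec (u : ℕ → ℝ) (η : ℝ → ℝ) (a b : ℝ) : Prop where
  lower : ∀ n, a ≤ u n
  upper : ∀ n, u n ≤ b
  small : ∀ ε > 0, ∃ δ > 0, ∀ θ, 0 ≤ θ → θ < δ → η θ < ε
  step : ∀ n m : ℕ, 0 < n → n ≤ m → u n - u m ≤ η (1 - n / m)

variable {u : ℕ → ℝ} {η : ℝ → ℝ} {a b : ℝ}

lemma SlowDec.bddU (h : SlowDec u η a b) (f : Filter ℕ) : IsBoundedUnder (· ≤ ·) f u :=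
  isBoundedUnder_of ⟨b, h.upper⟩

lemma SlowDec.bddL (h : SlowDec u η a b) (f : Filter ℕ) : IsBoundedUnder (· ≥ ·) f u :=
  isBoundedUnder_of ⟨a, h.lower⟩

lemma SlowDec.succ (h : SlowDec u η a b) {ε : ℝ} (hε : 0 < ε) :
    ∀ᶠ n in atTop, u n - u (n + 1) < ε := by
  obtain ⟨δ, hδ, hη⟩ := h.small ε hε
  have h1 : Tendsto (fun n : ℕ => (1 : ℝ) / ((n : ℝ) + 1)) atTop (𝓝 0) :=
    tendsto_one_div_add_atTop_nhds_zero_nat
  filter_upwards [h1.eventually (gt_mem_nhds hδ), eventually_gt_atTop 0] with n hn hn0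
  have hn' : (0 : ℝ) < n := by exact_mod_cast hn0
  have e : (1 : ℝ) - (n : ℝ) / ((n + 1 : ℕ) : ℝ) = 1 / ((n : ℝ) + 1) := by
    push_cast
    field_simp
    ring
  have h2 := h.step n (n + 1) hn0 (Nat.le_succ n)
  rw [e] at h2
  exact h2.trans_lt (hη _ (by positivity) hn)

/-- limit points of a bounded sequence with asymptotically nonnegative increments -/
theorem clusterPts_of_succ {u : ℕ → ℝ} (hU : IsBoundedUnder (· ≤ ·) atTop u)
    (hL : IsBoundedUnder (· ≥ ·) atTop u)
    (hstep : ∀ ε > 0, ∀ᶠ n in atTop, u n - u (n + 1) < ε) :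
    {x | MapClusterPt x atTop u} = Icc (liminf u atTop) (limsup u atTop) := by
  ext x
  rw [mem_ofPred_eq, mem_Icc]
  constructor
  · intro hx
    rw [mapClusterPt_iff_frequently] at hx
    constructor
    · by_contra hcon
      rw [not_le] at hcon
      obtain ⟨y, hxy, hyl⟩ := exists_between hcon
      have h1 := eventually_lt_of_lt_liminf hyl hL
      have h2 := hx (Iio y) (Iio_mem_nhds hxy)
      obtain ⟨n, hn1, hn2⟩ := (h2.and_eventually h1).exists
      exact absurd hn1 (not_lt.2 hn2.le)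
    · by_contra hcon
      rw [not_le] at hcon
      obtain ⟨y, hly, hyx⟩ := exists_between hcon
      have h1 := eventually_lt_of_limsup_lt hly hU
      have h2 := hx (Ioi y) (Ioi_mem_nhds hyx)
      obtain ⟨n, hn1, hn2⟩ := (h2.and_eventually h1).exists
      exact absurd hn1 (not_lt.2 hn2.le)
  · rintro ⟨h1, h2⟩
    rw [mapClusterPt_iff_frequently]
    intro s hs
    obtain ⟨ε, hε, hεs⟩ := Metric.mem_nhds_iff.1 hs
    rw [frequently_atTop]
    intro N
    obtain ⟨N', hN'⟩ := eventually_atTop.1 (hstep ε hε)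
    have h4 : ∃ᶠ n in atTop, x - ε < u n := by
      apply frequently_lt_of_lt_limsup hL.isCoboundedUnder_le
      linarith
    have h5 : ∃ᶠ n in atTop, u n < x + ε := by
      apply frequently_lt_of_liminf_lt hU.isCoboundedUnder_ge
      linarith
    obtain ⟨n1, hn1, hn1u⟩ := frequently_atTop.1 h4 (max N N')
    have hn1N : N ≤ n1 := (le_max_left _ _).trans hn1
    have hn1N' : N' ≤ n1 := (le_max_right _ _).trans hn1
    by_cases hlt : u n1 < x + ε
    · refine ⟨n1, hn1N, hεs ?_⟩
      rw [Metric.mem_ball, Real.dist_eq, abs_lt]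
      constructor <;> linarith
    · rw [not_lt] at hlt
      obtain ⟨n2, hn2, hn2u⟩ := frequently_atTop.1 h5 n1
      classical
      have hex : ∃ m, n1 ≤ m ∧ u m < x + ε := ⟨n2, hn2, hn2u⟩
      set m := Nat.find hex with hm
      obtain ⟨hm1, hm2⟩ := Nat.find_spec hex
      rw [← hm] at hm1 hm2
      have hm0 : n1 ≠ m := fun h => by rw [← h] at hm2; linarith
      have hm3 : n1 ≤ m - 1 := by omega
      have hm4 : x + ε ≤ u (m - 1) := by
        by_contra hcon
        exact Nat.find_min hex (m := m - 1) (by omega) ⟨hm3, not_le.1 hcon⟩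
      have hm5 := hN' (m - 1) (by omega)
      rw [show m - 1 + 1 = m by omega] at hm5
      refine ⟨m, by omega, hεs ?_⟩
      rw [Metric.mem_ball, Real.dist_eq, abs_lt]
      constructor <;> linarith

theorem SlowDec.clusterPts (h : SlowDec u η a b) :
    {x | MapClusterPt x atTop u} = Icc (liminf u atTop) (limsup u atTop) :=
  clusterPts_of_succ (h.bddU _) (h.bddL _) fun _ hε => h.succ hε

lemma exists_index {φ : ℕ → ℕ} (hφ : StrictMono φ) {J n : ℕ} (hn : φ J ≤ n) :
    ∃ j, J ≤ j ∧ φ j ≤ n ∧ n < φ (j + 1) := by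
  classical
  have hex : ∃ j, n < φ (j + 1) :=
    ⟨n, lt_of_lt_of_le (Nat.lt_succ_self n) (hφ.id_le (n + 1))⟩
  refine ⟨Nat.find hex, ?_, ?_, Nat.find_spec hex⟩
  · by_contra hcon
    rw [not_le] at hcon
    have h1 := Nat.find_spec hex
    have h2 : φ (Nat.find hex + 1) ≤ φ J := hφ.monotone hcon
    omega
  · rcases Nat.eq_zero_or_pos (Nat.find hex) with h0 | h0
    · rw [h0]
      exact (hφ.monotone (Nat.zero_le J)).trans hn
    · have := Nat.find_min hex (m := Nat.find hex - 1) (by omega)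
      rw [not_lt, Nat.sub_add_cancel h0] at this
      exact this

/-- comparison along a slowly growing sequence of indices -/
lemma SlowDec.seq_ev (h : SlowDec u η a b) {φ : ℕ → ℕ} (hφ : StrictMono φ)
    (hr : Tendsto (fun j => (φ (j + 1) : ℝ) / φ j) atTop (𝓝 1)) {ε : ℝ} (hε : 0 < ε) :
    ∀ᶠ j in atTop, ∀ n, φ j ≤ n → n < φ (j + 1) →
      u (φ j) ≤ u n + ε ∧ u n ≤ u (φ (j + 1)) + ε := by
  have hφt : Tendsto φ atTop atTop := hφ.tendsto_atTop
  obtain ⟨δ, hδ, hη⟩ := h.small ε hε
  have h2 := hr.eventually (gt_mem_nhds (show (1 : ℝ) < 1 + δ by linarith))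
  have h3 := hφt.eventually (eventually_gt_atTop 0)
  filter_upwards [h2, h3] with j hj2 hj3 n hn1 hn2
  have hm : (0 : ℝ) < φ j := by exact_mod_cast hj3
  have hn1' : (φ j : ℝ) ≤ n := by exact_mod_cast hn1
  have hn2' : (n : ℝ) ≤ φ (j + 1) := by exact_mod_cast hn2.le
  have hn0 : (0 : ℝ) < n := by linarith
  have hn00 : 0 < n := by omega
  have hp : (0 : ℝ) < φ (j + 1) := by linarith
  rw [div_lt_iff₀ hm] at hj2
  constructor
  · have k1 := h.step (φ j) n hj3 hn1
    have : η (1 - φ j / n) < ε := by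
      apply hη
      · rw [sub_nonneg, div_le_one hn0]; exact hn1'
      · rw [sub_lt_iff_lt_add, ← sub_lt_iff_lt_add', lt_div_iff₀ hn0]
        nlinarith
    linarith
  · have k1 := h.step n (φ (j + 1)) hn00 hn2.le
    have : η (1 - n / φ (j + 1)) < ε := by
      apply hη
      · rw [sub_nonneg, div_le_one hp]; exact hn2'
      · rw [sub_lt_iff_lt_add, ← sub_lt_iff_lt_add', lt_div_iff₀ hp]
        nlinarith
    linarith

theorem SlowDec.limsup_seq (h : SlowDec u η a b) {φ : ℕ → ℕ} (hφ : StrictMono φ)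
    (hr : Tendsto (fun j => (φ (j + 1) : ℝ) / φ j) atTop (𝓝 1)) :
    limsup (fun j => u (φ j)) atTop = limsup u atTop := by
  have hφt : Tendsto φ atTop atTop := hφ.tendsto_atTop
  have hb : IsBoundedUnder (· ≤ ·) atTop (fun j => u (φ j)) :=
    isBoundedUnder_of ⟨b, fun j => h.upper _⟩
  have hb' : IsBoundedUnder (· ≥ ·) atTop (fun j => u (φ j)) :=
    isBoundedUnder_of ⟨a, fun j => h.lower _⟩
  apply le_antisymm
  · apply le_of_forall_pos_le_add
    intro ε hε
    have h1 := eventually_lt_of_limsup_lt (show limsup u atTop < limsup u atTop + ε by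
      linarith) (h.bddU _)
    apply limsup_le_of_le hb'.isCoboundedUnder_le
    filter_upwards [hφt.eventually h1] with j hj using hj.le
  · apply le_of_forall_pos_le_add
    intro ε hε
    have h1 := eventually_lt_of_limsup_lt (show limsup (fun j => u (φ j)) atTop <
      limsup (fun j => u (φ j)) atTop + ε / 2 by linarith) hb
    obtain ⟨J1, hJ1⟩ := eventually_atTop.1 h1
    obtain ⟨J2, hJ2⟩ := eventually_atTop.1 (h.seq_ev hφ hr (show 0 < ε / 2 by positivity))
    apply limsup_le_of_le (h.bddL _).isCoboundedUnder_le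
    rw [eventually_atTop]
    refine ⟨φ (max J1 J2), fun n hn => ?_⟩
    obtain ⟨j, hj, hj1, hj2⟩ := exists_index hφ hn
    have h2 := (hJ2 j ((le_max_right _ _).trans hj) n hj1 hj2).2
    have h3 := hJ1 (j + 1) (((le_max_left _ _).trans hj).trans (Nat.le_succ j))
    linarith

theorem SlowDec.liminf_seq (h : SlowDec u η a b) {φ : ℕ → ℕ} (hφ : StrictMono φ)
    (hr : Tendsto (fun j => (φ (j + 1) : ℝ) / φ j) atTop (𝓝 1)) :
    liminf (fun j => u (φ j)) atTop = liminf u atTop := by
  have hφt : Tendsto φ atTop atTop := hφ.tendsto_atTop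
  have hb : IsBoundedUnder (· ≤ ·) atTop (fun j => u (φ j)) :=
    isBoundedUnder_of ⟨b, fun j => h.upper _⟩
  have hb' : IsBoundedUnder (· ≥ ·) atTop (fun j => u (φ j)) :=
    isBoundedUnder_of ⟨a, fun j => h.lower _⟩
  apply le_antisymm
  · apply le_of_forall_pos_le_add
    intro ε hε
    rw [← sub_le_iff_le_add]
    have h1 := eventually_lt_of_lt_liminf (show liminf (fun j => u (φ j)) atTop - ε / 2 <
      liminf (fun j => u (φ j)) atTop by linarith) hb'
    obtain ⟨J1, hJ1⟩ := eventually_atTop.1 h1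
    obtain ⟨J2, hJ2⟩ := eventually_atTop.1 (h.seq_ev hφ hr (show 0 < ε / 2 by positivity))
    apply le_liminf_of_le (h.bddU _).isCoboundedUnder_ge
    rw [eventually_atTop]
    refine ⟨φ (max J1 J2), fun n hn => ?_⟩
    obtain ⟨j, hj, hj1, hj2⟩ := exists_index hφ hn
    have h2 := (hJ2 j ((le_max_right _ _).trans hj) n hj1 hj2).1
    have h3 := hJ1 j ((le_max_left _ _).trans hj)
    linarith
  · apply le_of_forall_pos_le_add
    intro ε hε
    rw [← sub_le_iff_le_add]
    have h1 := eventually_lt_of_lt_liminf (show liminf u atTop - ε < liminf u atTop by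
      linarith) (h.bddL _)
    apply le_liminf_of_le hb.isCoboundedUnder_ge
    filter_upwards [hφt.eventually h1] with j hj using hj.le

/-- the limit points along a slowly growing sequence of indices fill the whole interval between
the lower and the upper limit of the full sequence -/
theorem SlowDec.clusterPts_seq (h : SlowDec u η a b) {φ : ℕ → ℕ} (hφ : StrictMono φ)
    (hr : Tendsto (fun j => (φ (j + 1) : ℝ) / φ j) atTop (𝓝 1)) :
    {x | MapClusterPt x atTop (fun j => u (φ j))} = Icc (liminf u atTop) (limsup u atTop) := by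
  rw [← h.liminf_seq hφ hr, ← h.limsup_seq hφ hr]
  apply clusterPts_of_succ
  · exact isBoundedUnder_of ⟨b, fun j => h.upper _⟩
  · exact isBoundedUnder_of ⟨a, fun j => h.lower _⟩
  · intro ε hε
    filter_upwards [h.seq_ev hφ hr (show 0 < ε / 3 by positivity)] with j hj
    have h1 := hj (φ j) le_rfl (hφ (Nat.lt_succ_self j))
    linarith [h1.2]

theorem SlowDec.tendsto_seq (h : SlowDec u η a b) {φ : ℕ → ℕ} (hφ : StrictMono φ)
    (hr : Tendsto (fun j => (φ (j + 1) : ℝ) / φ j) atTop (𝓝 1)) (L : ℝ) :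
    Tendsto u atTop (𝓝 L) ↔ Tendsto (fun j => u (φ j)) atTop (𝓝 L) := by
  constructor
  · intro hu
    exact hu.comp hφ.tendsto_atTop
  · intro hu
    refine tendsto_of_liminf_eq_limsup ?_ ?_ (h.bddU _) (h.bddL _)
    · rw [← h.liminf_seq hφ hr, hu.liminf_eq]
    · rw [← h.limsup_seq hφ hr, hu.limsup_eq]

end Pool.Agent.H160R3.Herm
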