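import Pool.Agent.H160R3.Herm.Lower
import Pool.Agent.H160R3.Herm.Seq

open Filter Set
open scoped Topology

namespace Pool.Agent.H160R3.Herm

lemma hermite_pos {n : ℕ} (hn : 0 < n) : 0 < hermite n :=
  lt_of_lt_of_le one_pos (one_le_hermite hn)

lemma ratio_pos {n : ℕ} (hn : 0 < n) : 0 < ratio n := by
  have := hermite_pos hn
  have hn' : (0 : ℝ) < n := by exact_mod_cast hn
  unfold ratio
  positivity

lemma ratio_le_one (n : ℕ) : ratio n ≤ 1 := by
  rcases Nat.eq_zero_or_pos n with rfl | hn
  · simp [ratio]
  · have hn' : (0 : ℝ) < n := by exact_mod_cast hn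
    rw [ratio, div_le_one hn']
    exact hermite_le hn

lemma ratio_ge {n : ℕ} (hn : 0 < n) : 1 / 144 ≤ ratio n := by
  have hn' : (0 : ℝ) < n := by exact_mod_cast hn
  rw [ratio, le_div_iff₀ hn']
  have := hermite_ge hn
  linarith

lemma ratio_nonneg (n : ℕ) : 0 ≤ ratio n := by
  rcases Nat.eq_zero_or_pos n with rfl | hn
  · simp [ratio]
  · exact (ratio_pos hn).le

/-- superadditivity up to the entropy of the splitting of the dimension -/
theorem entropy_modulus {n m : ℕ} (hn : 0 < n) (hm : 0 < m) :
    (n : ℝ) / (n + m) * Real.log (ratio n) + m / (n + m) * Real.log (ratio m)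
      - Real.binEntropy (m / (n + m)) ≤ Real.log (ratio (n + m)) := by
  have hn' : (0 : ℝ) < n := by exact_mod_cast hn
  have hm' : (0 : ℝ) < m := by exact_mod_cast hm
  have hs : (0 : ℝ) < (n : ℝ) + m := by positivity
  have h := log_superadd hn hm
  have h1 := hermite_pos hn
  have h2 := hermite_pos hm
  have h3 := hermite_pos (show 0 < n + m by omega)
  push_cast at h
  have e1 : Real.log (ratio n) = Real.log (hermite n) - Real.log n := by
    rw [ratio, Real.log_div h1.ne' hn'.ne']
  have e2 : Real.log (ratio m) = Real.log (hermite m) - Real.log m := by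
    rw [ratio, Real.log_div h2.ne' hm'.ne']
  have e3 : Real.log (ratio (n + m)) = Real.log (hermite (n + m)) - Real.log (n + m) := by
    rw [ratio, Real.log_div h3.ne' (by push_cast; exact hs.ne')]
    push_cast
    rfl
  have e4 : Real.binEntropy (m / (n + m)) =
      m / (n + m) * (Real.log (n + m) - Real.log m) + n / (n + m) * (Real.log (n + m) - Real.log n) := by
    unfold Real.binEntropy
    have : 1 - (m : ℝ) / (n + m) = n / (n + m) := by field_simp; ring
    rw [this, Real.log_inv, Real.log_inv, Real.log_div hm'.ne' hs.ne',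
      Real.log_div hn'.ne' hs.ne']
    ring
  rw [e1, e2, e3, e4]
  have e5 : (n : ℝ) / (n + m) * (Real.log (hermite n) - Real.log n) +
      m / (n + m) * (Real.log (hermite m) - Real.log m) -
      (m / (n + m) * (Real.log (n + m) - Real.log m) + n / (n + m) * (Real.log (n + m) - Real.log n))
      = (n * Real.log (hermite n) + m * Real.log (hermite m)) / (n + m) - Real.log (n + m) := by
    field_simp
    ring
  rw [e5]
  have : (n * Real.log (hermite n) + m * Real.log (hermite m)) / (n + m) ≤
      Real.log (hermite (n + m)) := by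
    rw [div_le_iff₀ hs]
    linarith
  linarith

/-- the modulus -/
noncomputable def modulus (θ : ℝ) : ℝ := θ * Real.log 144 + Real.binEntropy θ

lemma log_step {n k : ℕ} (hn : 0 < n) (hnk : n ≤ k) :
    Real.log (ratio n) - modulus (1 - n / k) ≤ Real.log (ratio k) := by
  have hn' : (0 : ℝ) < n := by exact_mod_cast hn
  obtain ⟨m, rfl⟩ := Nat.exists_eq_add_of_le hnk
  rcases Nat.eq_zero_or_pos m with rfl | hm
  · simp [modulus, div_self hn'.ne']
  · have hm' : (0 : ℝ) < m := by exact_mod_cast hm
    have hs : (0 : ℝ) < (n : ℝ) + m := by positivity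
    have h := entropy_modulus hn hm
    have e : 1 - (n : ℝ) / ((n + m : ℕ) : ℝ) = m / (n + m) := by
      push_cast
      field_simp
      ring
    rw [e, modulus]
    have e2 : (n : ℝ) / (n + m) = 1 - m / (n + m) := by
      field_simp
      ring
    rw [e2] at h
    set θ := (m : ℝ) / (n + m) with hθ
    have hθ0 : 0 ≤ θ := by positivity
    have l1 : Real.log (ratio n) ≤ 0 := Real.log_nonpos (ratio_nonneg n) (ratio_le_one n)
    have l2 : -Real.log 144 ≤ Real.log (ratio m) := by
      have := Real.log_le_log (by norm_num) (ratio_ge hm)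
      rwa [one_div, Real.log_inv] at this
    nlinarith

lemma modulus_nonneg {θ : ℝ} (h0 : 0 ≤ θ) (h1 : θ ≤ 1) : 0 ≤ modulus θ := by
  have := Real.binEntropy_nonneg h0 h1
  have h2 : 0 ≤ Real.log 144 := Real.log_nonneg (by norm_num)
  unfold modulus
  positivity

theorem ratio_step {n k : ℕ} (hn : 0 < n) (hnk : n ≤ k) :
    ratio n * Real.exp (-modulus (1 - n / k)) ≤ ratio k := by
  have h := log_step hn hnk
  have h1 := ratio_pos hn
  have h2 := ratio_pos (lt_of_lt_of_le hn hnk)
  have h3 := Real.exp_le_exp.mpr h
  rw [Real.exp_log h2, sub_eq_add_neg, Real.exp_add, Real.exp_log h1] at h3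
  exact h3

lemma continuous_modulus : Continuous modulus := by
  unfold modulus
  have := Real.binEntropy_continuous
  fun_prop

theorem slowDec : SlowDec ratio modulus 0 1 where
  lower := ratio_nonneg
  upper := ratio_le_one
  small := by
    intro ε hε
    have h0 : modulus 0 = 0 := by simp [modulus]
    have h1 := continuous_modulus.tendsto 0
    rw [h0] at h1
    have h2 := h1.eventually (gt_mem_nhds hε)
    obtain ⟨δ, hδ, h3⟩ := Metric.eventually_nhds_iff.1 h2
    refine ⟨δ, hδ, fun θ hθ0 hθ => h3 ?_⟩
    rw [Real.dist_eq, sub_zero, abs_of_nonneg hθ0]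
    exact hθ
  step := by
    intro n m hn hnm
    have h := ratio_step hn hnm
    have h1 := ratio_le_one n
    have h2 := ratio_nonneg n
    have h3 := Real.add_one_le_exp (-modulus (1 - n / m))
    have hm : 0 < m := lt_of_lt_of_le hn hnm
    have h4 : 0 ≤ modulus (1 - n / m) := by
      have hm' : (0 : ℝ) < m := by exact_mod_cast hm
      have hnm' : (n : ℝ) ≤ m := by exact_mod_cast hnm
      apply modulus_nonneg
      · rw [sub_nonneg, div_le_one hm']; exact hnm'
      · have : 0 ≤ (n : ℝ) / m := by positivity
        linarith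
    nlinarith

end Pool.Agent.H160R3.Herm
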