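import Pool.Agent.H160R3.Herm.Upper

open Matrix

namespace Pool.Agent.H160R3.Herm

lemma le_minSq {n : ℕ} (hn : 0 < n) (A : Matrix (Fin n) (Fin n) ℝ) (c : ℝ)
    (h : ∀ w : Fin n → ℤ, w ≠ 0 → c ≤ ∑ i, (Matrix.mulVec A (fun j => (w j : ℝ))) i ^ 2) :
    c ≤ minSq A := by
  have : Nonempty {w : Fin n → ℤ // w ≠ 0} :=
    ⟨⟨fun _ => 1, fun h => by have := congrFun h ⟨0, hn⟩; simp at this⟩⟩
  exact le_ciInf fun w => h w.1 w.2

/-- the block sum of two lattices -/
noncomputable def bsum {n m : ℕ} (A : Matrix (Fin n) (Fin n) ℝ) (B : Matrix (Fin m) (Fin m) ℝ) :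
    Matrix (Fin (n + m)) (Fin (n + m)) ℝ :=
  Matrix.reindex finSumFinEquiv finSumFinEquiv (Matrix.fromBlocks A 0 0 B)

lemma det_bsum {n m : ℕ} (A : Matrix (Fin n) (Fin n) ℝ) (B : Matrix (Fin m) (Fin m) ℝ) :
    (bsum A B).det = A.det * B.det := by
  rw [bsum, Matrix.det_reindex_self, Matrix.det_fromBlocks_zero₂₁]

lemma sum_bsum {n m : ℕ} (A : Matrix (Fin n) (Fin n) ℝ) (B : Matrix (Fin m) (Fin m) ℝ)
    (w : Fin (n + m) → ℝ) :
    ∑ i, (Matrix.mulVec (bsum A B) w) i ^ 2 =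
      ∑ i, (Matrix.mulVec A (fun j => w (Fin.castAdd m j))) i ^ 2 +
      ∑ i, (Matrix.mulVec B (fun j => w (Fin.natAdd n j))) i ^ 2 := by
  rw [Fin.sum_univ_add]
  congr 1
  · refine Finset.sum_congr rfl fun i _ => ?_
    congr 1
    simp only [Matrix.mulVec, dotProduct]
    rw [Fin.sum_univ_add]
    simp [bsum]
  · refine Finset.sum_congr rfl fun i _ => ?_
    congr 1
    simp only [Matrix.mulVec, dotProduct]
    rw [Fin.sum_univ_add]
    simp [bsum]

lemma minSq_smul_le {n : ℕ} (A : Matrix (Fin n) (Fin n) ℝ) (s : ℝ) (w : Fin n → ℤ) (hw : w ≠ 0) :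
    s ^ 2 * minSq A ≤ ∑ i, (Matrix.mulVec (s • A) (fun j => (w j : ℝ))) i ^ 2 := by
  have h : ∑ i, (Matrix.mulVec (s • A) (fun j => (w j : ℝ))) i ^ 2 =
      s ^ 2 * ∑ i, (Matrix.mulVec A (fun j => (w j : ℝ))) i ^ 2 := by
    rw [Finset.mul_sum]
    refine Finset.sum_congr rfl fun i _ => ?_
    rw [Matrix.smul_mulVec]
    simp [mul_pow]
  rw [h]
  exact mul_le_mul_of_nonneg_left (minSq_le A w hw) (sq_nonneg s)

lemma pow_value {n : ℕ} (hn : 0 < n) (a d : ℝ) (hd : 0 < d) :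
    (a / d ^ ((2 : ℝ) / (n : ℝ))) ^ n = a ^ n / d ^ 2 := by
  have hn' : (0 : ℝ) < n := by exact_mod_cast hn
  rw [div_pow, ← Real.rpow_natCast (d ^ ((2 : ℝ) / (n : ℝ))), ← Real.rpow_mul hd.le]
  congr 1
  rw [div_mul_cancel₀ _ hn'.ne']
  norm_cast

lemma value_mul {n m : ℕ} (hn : 0 < n) (hm : 0 < m) (A : Matrix (Fin n) (Fin n) ℝ)
    (B : Matrix (Fin m) (Fin m) ℝ) (hA : A.det ≠ 0) (hB : B.det ≠ 0)
    (hA0 : 0 < minSq A) (hB0 : 0 < minSq B) :
    (minSq A / |A.det| ^ ((2 : ℝ) / (n : ℝ))) ^ n * (minSq B / |B.det| ^ ((2 : ℝ) / (m : ℝ))) ^ m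
      ≤ hermite (n + m) ^ (n + m) := by
  set α := minSq A with hα
  set β := minSq B with hβ
  have hnm : 0 < n + m := by omega
  set s := (√α)⁻¹ with hs
  set t := (√β)⁻¹ with ht
  have hs0 : 0 < s := by positivity
  have ht0 : 0 < t := by positivity
  have hs2 : s ^ 2 * α = 1 := by
    rw [hs, inv_pow, Real.sq_sqrt hA0.le, inv_mul_cancel₀ hA0.ne']
  have ht2 : t ^ 2 * β = 1 := by
    rw [ht, inv_pow, Real.sq_sqrt hB0.le, inv_mul_cancel₀ hB0.ne']
  set C := bsum (s • A) (t • B) with hC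
  have hdet : C.det = s ^ n * A.det * (t ^ m * B.det) := by
    rw [hC, det_bsum, Matrix.det_smul, Matrix.det_smul, Fintype.card_fin, Fintype.card_fin]
  have hC0 : C.det ≠ 0 := by
    rw [hdet]
    positivity
  have hmin : 1 ≤ minSq C := by
    apply le_minSq hnm
    intro w hw
    rw [hC, sum_bsum]
    have hcases : (fun j => w (Fin.castAdd m j)) ≠ 0 ∨ (fun j => w (Fin.natAdd n j)) ≠ 0 := by
      by_contra hcon
      push Not at hcon
      apply hw
      ext i
      refine Fin.addCases (fun j => ?_) (fun j => ?_) i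
      · exact congrFun hcon.1 j
      · exact congrFun hcon.2 j
    have p1 : 0 ≤ ∑ i, (Matrix.mulVec (s • A) (fun j => (w (Fin.castAdd m j) : ℝ))) i ^ 2 :=
      Finset.sum_nonneg fun _ _ => sq_nonneg _
    have p2 : 0 ≤ ∑ i, (Matrix.mulVec (t • B) (fun j => (w (Fin.natAdd n j) : ℝ))) i ^ 2 :=
      Finset.sum_nonneg fun _ _ => sq_nonneg _
    rcases hcases with h | h
    · have := minSq_smul_le A s _ h
      rw [← hα, hs2] at this
      linarith
    · have := minSq_smul_le B t _ h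
      rw [← hβ, ht2] at this
      linarith
  have h1 := le_hermite hnm C hC0
  have hCd : 0 < |C.det| := abs_pos.mpr hC0
  have h2 : 1 / |C.det| ^ ((2 : ℝ) / ((n + m : ℕ) : ℝ)) ≤ hermite (n + m) :=
    le_trans (by gcongr) h1
  have h3 := pow_le_pow_left₀ (by positivity) h2 (n + m)
  rw [pow_value hnm _ _ hCd] at h3
  refine le_trans (le_of_eq ?_) h3
  rw [pow_value hn _ _ (abs_pos.mpr hA), pow_value hm _ _ (abs_pos.mpr hB), one_pow, sq_abs, sq_abs,
    sq_abs, hdet]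
  have e1 : α ^ n = ((s ^ n) ^ 2)⁻¹ := by
    rw [← pow_mul, mul_comm n 2, pow_mul, ← inv_pow]
    congr 1
    exact eq_inv_of_mul_eq_one_right hs2
  have e2 : β ^ m = ((t ^ m) ^ 2)⁻¹ := by
    rw [← pow_mul, mul_comm m 2, pow_mul, ← inv_pow]
    congr 1
    exact eq_inv_of_mul_eq_one_right ht2
  rw [e1, e2]
  field_simp

lemma one_le_minSq_one {n : ℕ} (hn : 0 < n) : 1 ≤ minSq (1 : Matrix (Fin n) (Fin n) ℝ) := by
  apply le_minSq hn
  intro w hw
  rw [Matrix.one_mulVec]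
  obtain ⟨i, hi⟩ : ∃ i, w i ≠ 0 := by
    by_contra hcon
    push Not at hcon
    exact hw (funext hcon)
  have h1 : (1 : ℝ) ≤ (w i : ℝ) ^ 2 := by
    have : 1 ≤ (w i) ^ 2 := by
      have := sq_pos_of_ne_zero hi
      omega
    exact_mod_cast this
  exact h1.trans (Finset.single_le_sum (f := fun i => (w i : ℝ) ^ 2)
    (fun _ _ => sq_nonneg _) (Finset.mem_univ i))

lemma one_le_hermite {n : ℕ} (hn : 0 < n) : 1 ≤ hermite n := by
  have h := le_hermite hn (1 : Matrix (Fin n) (Fin n) ℝ) (by simp)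
  rw [Matrix.det_one, abs_one, Real.one_rpow, div_one] at h
  exact (one_le_minSq_one hn).trans h

lemma pow_mul_pow_le {n m : ℕ} (hn : 0 < n) (hm : 0 < m) {a b : ℝ} (ha0 : 0 < a) (hb0 : 0 < b)
    (ha : a < hermite n) (hb : b < hermite m) : a ^ n * b ^ m ≤ hermite (n + m) ^ (n + m) := by
  obtain ⟨A, hA, hA1⟩ := exists_lt_value ha
  obtain ⟨B, hB, hB1⟩ := exists_lt_value hb
  have hA0 : 0 < minSq A := by
    have h := ha0.trans hA1
    by_contra hcon
    have : minSq A = 0 := le_antisymm (not_lt.mp hcon) (minSq_nonneg A)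
    rw [this, zero_div] at h
    exact lt_irrefl _ h
  have hB0 : 0 < minSq B := by
    have h := hb0.trans hB1
    by_contra hcon
    have : minSq B = 0 := le_antisymm (not_lt.mp hcon) (minSq_nonneg B)
    rw [this, zero_div] at h
    exact lt_irrefl _ h
  refine le_trans ?_ (value_mul hn hm A B hA hB hA0 hB0)
  gcongr

/-- direct sums: `γ_n^n γ_m^m ≤ γ_(n+m)^(n+m)` -/
theorem hermite_mul {n m : ℕ} (hn : 0 < n) (hm : 0 < m) :
    hermite n ^ n * hermite m ^ m ≤ hermite (n + m) ^ (n + m) := by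
  have h1 := one_le_hermite hn
  have h2 := one_le_hermite hm
  have hlim : Filter.Tendsto (fun t : ℝ => (t * hermite n) ^ n * (t * hermite m) ^ m)
      (nhdsWithin 1 (Set.Ioo 0 1)) (nhds ((1 * hermite n) ^ n * (1 * hermite m) ^ m)) := by
    apply Filter.Tendsto.mono_left _ nhdsWithin_le_nhds
    apply Continuous.tendsto
    fun_prop
  have hne : (nhdsWithin (1 : ℝ) (Set.Ioo 0 1)).NeBot := by
    apply right_nhdsWithin_Ioo_neBot
    norm_num
  rw [one_mul, one_mul] at hlim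
  apply le_of_tendsto hlim
  filter_upwards [self_mem_nhdsWithin] with t ht
  apply pow_mul_pow_le hn hm
  · have := ht.1
    positivity
  · have := ht.1
    positivity
  · nlinarith [ht.2]
  · nlinarith [ht.2]

theorem log_superadd {n m : ℕ} (hn : 0 < n) (hm : 0 < m) :
    n * Real.log (hermite n) + m * Real.log (hermite m) ≤
      (n + m : ℕ) * Real.log (hermite (n + m)) := by
  have h1 := one_le_hermite hn
  have h2 := one_le_hermite hm
  have h := Real.log_le_log (by positivity) (hermite_mul hn hm)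
  rw [Real.log_mul (by positivity) (by positivity), Real.log_pow, Real.log_pow, Real.log_pow] at h
  exact h

end Pool.Agent.H160R3.Herm
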