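import Pool.Agent.H160R3.Herm.Defs

open MeasureTheory Metric

namespace Pool.Agent.H160R3.Herm

lemma bddBelow_range {n : ℕ} (A : Matrix (Fin n) (Fin n) ℝ) :
    BddBelow (Set.range fun w : {w : Fin n → ℤ // w ≠ 0} =>
        ∑ i, (Matrix.mulVec A (fun j => (w.1 j : ℝ))) i ^ 2) :=
  ⟨0, by rintro _ ⟨w, rfl⟩; positivity⟩

lemma minSq_le {n : ℕ} (A : Matrix (Fin n) (Fin n) ℝ) (w : Fin n → ℤ) (hw : w ≠ 0) :
    minSq A ≤ ∑ i, (Matrix.mulVec A (fun j => (w j : ℝ))) i ^ 2 :=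
  ciInf_le (bddBelow_range A) ⟨w, hw⟩

lemma minSq_nonneg {n : ℕ} (A : Matrix (Fin n) (Fin n) ℝ) : 0 ≤ minSq A :=
  Real.iInf_nonneg fun _ => Finset.sum_nonneg fun _ _ => sq_nonneg _

/-- Minkowski's linear forms theorem -/
lemma minkowski {n : ℕ} (hn : 0 < n) (A : Matrix (Fin n) (Fin n) ℝ) (hA : A.det ≠ 0) (r : ℝ)
    (hr : 0 ≤ r) (h : |A.det| ≤ r ^ n) :
    ∃ w : Fin n → ℤ, w ≠ 0 ∧ ∀ i, |(Matrix.mulVec A (fun j => (w j : ℝ))) i| ≤ r := by
  classical
  have hne : Nonempty (Fin n) := ⟨⟨0, hn⟩⟩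
  have hnt : Nontrivial (Fin n → ℝ) := Function.nontrivial
  set b := Pi.basisFun ℝ (Fin n) with hb
  set L : AddSubgroup (Fin n → ℝ) := (Submodule.span ℤ (Set.range b)).toAddSubgroup with hL
  have fund : IsAddFundamentalDomain L (ZSpan.fundamentalDomain b) volume :=
    ZSpan.isAddFundamentalDomain' b volume
  have hvol : volume (ZSpan.fundamentalDomain b) = 1 := by
    rw [ZSpan.volume_fundamentalDomain]
    have : (Matrix.of b) = (1 : Matrix (Fin n) (Fin n) ℝ) := by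
      ext i j
      simp [hb, Matrix.one_apply, Pi.single_apply, eq_comm]
    rw [this]
    simp
  set f : (Fin n → ℝ) →ₗ[ℝ] (Fin n → ℝ) := Matrix.toLin' A⁻¹ with hf
  have hdet : IsUnit A.det := isUnit_iff_ne_zero.mpr hA
  have hfdet : LinearMap.det f = (A.det)⁻¹ := by
    rw [hf, LinearMap.det_toLin', Matrix.det_nonsing_inv, Ring.inverse_eq_inv']
  set s : Set (Fin n → ℝ) := f '' closedBall 0 r with hs
  have h_symm : ∀ x ∈ s, -x ∈ s := by
    rintro _ ⟨y, hy, rfl⟩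
    refine ⟨-y, ?_, by simp⟩
    simpa using hy
  have h_conv : Convex ℝ s := (convex_closedBall 0 r).linear_image f
  have h_cpt : IsCompact s :=
    (isCompact_closedBall 0 r).image (LinearMap.continuous_of_finiteDimensional f)
  have hμ : volume s = ENNReal.ofReal (|A.det|⁻¹ * (2 * r) ^ n) := by
    rw [hs, Measure.addHaar_image_linearMap, hfdet, Real.volume_pi_closedBall _ hr,
      ← ENNReal.ofReal_mul (abs_nonneg _), abs_inv, Fintype.card_fin]
  have hcov : volume (ZSpan.fundamentalDomain b) * 2 ^ (Module.finrank ℝ (Fin n → ℝ)) ≤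
      volume s := by
    rw [hvol, one_mul, hμ, Module.finrank_fin_fun]
    have h2 : (2 : ENNReal) ^ n = ENNReal.ofReal (2 ^ n) := by
      rw [ENNReal.ofReal_pow (by norm_num)]; simp
    rw [h2]
    apply ENNReal.ofReal_le_ofReal
    rw [mul_pow, inv_mul_eq_div, le_div_iff₀ (abs_pos.mpr hA)]
    exact mul_le_mul_of_nonneg_left h (by positivity)
  have hcount : Countable L :=
    inferInstanceAs (Countable (Submodule.span ℤ (Set.range b)))
  have hdisc : DiscreteTopology L :=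
    inferInstanceAs (DiscreteTopology (Submodule.span ℤ (Set.range b)))
  obtain ⟨x, hx0, hx⟩ := exists_ne_zero_mem_lattice_of_measure_mul_two_pow_le_measure
    fund h_symm h_conv h_cpt hcov
  obtain ⟨y, hy, hyx⟩ := hx
  have hxL : (x : Fin n → ℝ) ∈ Submodule.span ℤ (Set.range b) := x.2
  rw [b.mem_span_iff_repr_mem ℤ] at hxL
  choose w hw using hxL
  have hxw : (x : Fin n → ℝ) = fun j => (w j : ℝ) := by
    ext j
    have := hw j
    simp [hb] at this
    exact this.symm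
  refine ⟨w, ?_, fun i => ?_⟩
  · rintro rfl
    apply hx0
    apply Subtype.ext
    rw [hxw]
    ext j
    simp
  · have hAx : Matrix.mulVec A (x : Fin n → ℝ) = y := by
      rw [← hyx, hf, Matrix.toLin'_apply, Matrix.mulVec_mulVec, Matrix.mul_nonsing_inv _ hdet,
        Matrix.one_mulVec]
    rw [← hxw, hAx]
    have := (norm_le_pi_norm y i).trans (by simpa using hy : ‖y‖ ≤ r)
    simpa using this

lemma value_le {n : ℕ} (hn : 0 < n) (A : Matrix (Fin n) (Fin n) ℝ) (hA : A.det ≠ 0) :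
    minSq A / |A.det| ^ ((2 : ℝ) / (n : ℝ)) ≤ n := by
  have hd : 0 < |A.det| := abs_pos.mpr hA
  have hn' : (0 : ℝ) < n := by exact_mod_cast hn
  set r := |A.det| ^ ((1 : ℝ) / n) with hr
  have hr0 : 0 ≤ r := by positivity
  have hrn : r ^ n = |A.det| := by
    rw [hr, ← Real.rpow_natCast, ← Real.rpow_mul hd.le]
    field_simp
    simp
  have hr2 : r ^ 2 = |A.det| ^ ((2 : ℝ) / n) := by
    rw [hr, ← Real.rpow_natCast, ← Real.rpow_mul hd.le]
    congr 1
    push_cast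
    ring
  obtain ⟨w, hw, hwr⟩ := minkowski hn A hA r hr0 hrn.ge
  rw [div_le_iff₀ (by positivity), ← hr2]
  refine (minSq_le A w hw).trans ?_
  calc ∑ i, (Matrix.mulVec A (fun j => (w j : ℝ))) i ^ 2 ≤ ∑ _i : Fin n, r ^ 2 := by
        apply Finset.sum_le_sum
        intro i _
        exact sq_le_sq.mpr (by rw [abs_of_nonneg hr0]; exact hwr i)
    _ = n * r ^ 2 := by simp

lemma bddAbove_values {n : ℕ} (hn : 0 < n) :
    BddAbove (Set.range fun A : {A : Matrix (Fin n) (Fin n) ℝ // A.det ≠ 0} =>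
      minSq A.1 / |A.1.det| ^ ((2 : ℝ) / (n : ℝ))) :=
  ⟨n, by rintro _ ⟨A, rfl⟩; exact value_le hn A.1 A.2⟩

lemma le_hermite {n : ℕ} (hn : 0 < n) (A : Matrix (Fin n) (Fin n) ℝ) (hA : A.det ≠ 0) :
    minSq A / |A.det| ^ ((2 : ℝ) / (n : ℝ)) ≤ hermite n :=
  le_ciSup (bddAbove_values hn) (⟨A, hA⟩ : {A : Matrix (Fin n) (Fin n) ℝ // A.det ≠ 0})

lemma hermite_le {n : ℕ} (hn : 0 < n) : hermite n ≤ n := by
  have : Nonempty {A : Matrix (Fin n) (Fin n) ℝ // A.det ≠ 0} := ⟨⟨1, by simp⟩⟩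
  exact ciSup_le fun A => value_le hn A.1 A.2

lemma exists_lt_value {n : ℕ} {a : ℝ} (ha : a < hermite n) :
    ∃ A : Matrix (Fin n) (Fin n) ℝ, A.det ≠ 0 ∧
      a < minSq A / |A.det| ^ ((2 : ℝ) / (n : ℝ)) := by
  have : Nonempty {A : Matrix (Fin n) (Fin n) ℝ // A.det ≠ 0} := ⟨⟨1, by simp⟩⟩
  obtain ⟨A, hA⟩ := exists_lt_of_lt_ciSup ha
  exact ⟨A.1, A.2, hA⟩

end Pool.Agent.H160R3.Herm
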